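import Mathlib

open scoped BigOperators
open Filter Topology

namespace Pool.Agent.Results.MP_c12a31_an.AllTP

/-- the kernel K on X × Y is totally nonnegative -/
def TN {X Y : Set ℝ} (K : X → Y → ℝ) : Prop :=
  ∀ (n : ℕ) (x : Fin n → X) (y : Fin n → Y), StrictMono x → StrictMono y →
    0 ≤ (Matrix.of fun i j => K (x i) (y j)).det

/-- the kernel K on X × Y is totally positive -/
def TP {X Y : Set ℝ} (K : X → Y → ℝ) : Prop :=
  ∀ (n : ℕ) (x : Fin n → X) (y : Fin n → Y), StrictMono x → StrictMono y →
    0 < (Matrix.of fun i j => K (x i) (y j)).det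

section CauchyBinet

theorem cb_expand {p N : ℕ} (A : Matrix (Fin p) (Fin N) ℝ) (B : Matrix (Fin N) (Fin p) ℝ) :
    (A * B).det = ∑ g : Fin p → Fin N, (A.submatrix id g).det * ∏ i, B (g i) i := by
  simp only [Matrix.det_apply']
  simp only [Matrix.mul_apply]
  have h1 : ∀ σ : Equiv.Perm (Fin p), (∏ i, ∑ k, A (σ i) k * B k i)
      = ∑ g : Fin p → Fin N, ∏ i, A (σ i) (g i) * B (g i) i := by
    intro σ
    rw [Finset.prod_univ_sum]
    rw [Fintype.piFinset_univ]
  simp only [h1, Finset.mul_sum]
  rw [Finset.sum_comm]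
  apply Finset.sum_congr rfl
  intro g _
  rw [Finset.sum_mul]
  apply Finset.sum_congr rfl
  intro σ _
  rw [Finset.prod_mul_distrib]
  simp only [Matrix.submatrix_apply, id]
  ring

theorem cauchyBinet {p N : ℕ} (A : Matrix (Fin p) (Fin N) ℝ) (B : Matrix (Fin N) (Fin p) ℝ) :
    (A * B).det = ∑ f : Fin p ↪o Fin N, (A.submatrix id f).det * (B.submatrix f id).det := by
  rw [cb_expand]
  have h1 : ∀ f : Fin p ↪o Fin N, (A.submatrix id f).det * (B.submatrix f id).det
      = ∑ τ : Equiv.Perm (Fin p),
        (A.submatrix id (fun i => f (τ i))).det * ∏ i, B (f (τ i)) i := by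
    intro f
    rw [Matrix.det_apply' (B.submatrix f id), Finset.mul_sum]
    apply Finset.sum_congr rfl
    intro τ _
    have h2 : (A.submatrix id (fun i => f (τ i))).det
        = (Equiv.Perm.sign τ : ℝ) * (A.submatrix id f).det := by
      rw [← Matrix.det_permute' τ (A.submatrix id f)]
      rfl
    rw [h2]
    simp only [Matrix.submatrix_apply, id]
    ring
  simp only [h1]
  rw [← Finset.sum_product']
  symm
  apply Fintype.sum_of_injective (fun q : (Fin p ↪o Fin N) × Equiv.Perm (Fin p) => fun i => q.1 (q.2 i))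
  · rintro ⟨f, τ⟩ ⟨f', τ'⟩ h
    simp only at h
    have hr : Set.range f = Set.range f' := by
      ext z
      constructor
      · rintro ⟨i, rfl⟩
        refine ⟨τ' (τ.symm i), ?_⟩
        have := congrFun h (τ.symm i)
        simp at this
        rw [this]
      · rintro ⟨i, rfl⟩
        refine ⟨τ (τ'.symm i), ?_⟩
        have := congrFun h (τ'.symm i)
        simp at this
        rw [this]
    have hff : f = f' := by
      apply DFunLike.coe_injective
      exact (StrictMono.range_inj f.strictMono f'.strictMono).1 hr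
    subst hff
    have : τ = τ' := by
      ext i
      have := congrFun h i
      have := f.injective this
      rw [this]
    rw [this]
  · intro g hg
    by_cases hinj : Function.Injective g
    · exfalso
      apply hg
      have hsm : StrictMono (g ∘ Tuple.sort g) :=
        (Tuple.monotone_sort g).strictMono_of_injective (hinj.comp (Tuple.sort g).injective)
      refine ⟨(OrderEmbedding.ofStrictMono (g ∘ Tuple.sort g) hsm, (Tuple.sort g)⁻¹), ?_⟩
      funext i
      simp
    · have hinj' : ∃ a b, g a = g b ∧ a ≠ b := by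
        unfold Function.Injective at hinj
        push Not at hinj
        exact hinj
      obtain ⟨a, b, hab, hne⟩ := hinj'
      have : (A.submatrix id g).det = 0 := by
        apply Matrix.det_zero_of_column_eq hne
        intro k
        simp [hab]
      rw [this, zero_mul]
  · rintro ⟨f, τ⟩
    rfl

end CauchyBinet

section Exp

theorem exp_unique : ∀ (p : ℕ) (y : Fin p → ℝ) (c : Fin p → ℝ) (x : Fin p → ℝ), StrictMono y →
    StrictMono x → (∀ i, ∑ j, c j * Real.exp (y j * x i) = 0) → c = 0 := by
  intro p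
  induction p with
  | zero => intro y c x _ _ _; funext j; exact j.elim0
  | succ p ih =>
    intro y c x hy hx h
    set g : ℝ → ℝ := fun t => c 0 + ∑ j : Fin p, c j.succ * Real.exp ((y j.succ - y 0) * t) with hg
    have hg0 : ∀ i, g (x i) = 0 := by
      intro i
      have h1 := h i
      rw [Fin.sum_univ_succ] at h1
      have h2 : g (x i) = Real.exp (-(y 0 * x i)) * (c 0 * Real.exp (y 0 * x i)
          + ∑ j : Fin p, c j.succ * Real.exp (y j.succ * x i)) := by
        rw [hg]
        simp only
        rw [mul_add, Finset.mul_sum]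
        congr 1
        · rw [mul_comm (c 0), ← mul_assoc, ← Real.exp_add]
          simp
        · apply Finset.sum_congr rfl
          intro j _
          rw [mul_left_comm, ← Real.exp_add]
          congr 2
          ring
      rw [h2, h1, mul_zero]
    have hd : ∀ t, HasDerivAt g (∑ j : Fin p, (c j.succ * (y j.succ - y 0)) * Real.exp ((y j.succ - y 0) * t)) t := by
      intro t
      rw [hg]
      have h3 : HasDerivAt (fun t => ∑ j : Fin p, c j.succ * Real.exp ((y j.succ - y 0) * t))
          (∑ j : Fin p, (c j.succ * (y j.succ - y 0)) * Real.exp ((y j.succ - y 0) * t)) t := by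
        apply HasDerivAt.fun_sum
        intro j _
        have h4 : HasDerivAt (fun t : ℝ => (y j.succ - y 0) * t) (y j.succ - y 0) t := by
          simpa using (hasDerivAt_id t).const_mul (y j.succ - y 0)
        have h5 := (h4.exp).const_mul (c j.succ)
        have h6 : (c j.succ * (y j.succ - y 0)) * Real.exp ((y j.succ - y 0) * t)
            = c j.succ * (Real.exp ((y j.succ - y 0) * t) * (y j.succ - y 0)) := by ring
        rw [h6]
        exact h5
      exact h3.const_add (c 0)
    have hrolle : ∀ i : Fin p, ∃ ξ, x i.castSucc < ξ ∧ ξ < x i.succ ∧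
        ∑ j : Fin p, (c j.succ * (y j.succ - y 0)) * Real.exp ((y j.succ - y 0) * ξ) = 0 := by
      intro i
      have hlt : x i.castSucc < x i.succ := hx (Fin.castSucc_lt_succ)
      obtain ⟨ξ, hξ, hξ0⟩ := exists_hasDerivAt_eq_zero hlt
        (fun t _ => (hd t).continuousAt.continuousWithinAt)
        (by rw [hg0, hg0]) (fun t _ => hd t)
      exact ⟨ξ, hξ.1, hξ.2, hξ0⟩
    choose ξ hξ1 hξ2 hξ3 using hrolle
    have hξm : StrictMono ξ := by
      intro i j hij
      calc ξ i < x i.succ := hξ2 i
        _ ≤ x j.castSucc := hx.monotone (by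
            rw [Fin.le_def]
            simp only [Fin.val_succ, Fin.val_castSucc]
            exact hij)
        _ < ξ j := hξ1 j
    have hc := ih (fun j => y j.succ - y 0) (fun j => c j.succ * (y j.succ - y 0)) ξ
      (by
        intro i j hij
        have := hy (Fin.succ_lt_succ_iff.2 hij)
        simp only
        linarith) hξm hξ3
    have hcs : ∀ j : Fin p, c j.succ = 0 := by
      intro j
      have h6 := congrFun hc j
      simp only [Pi.zero_apply, mul_eq_zero] at h6
      rcases h6 with h6 | h6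
      · exact h6
      · have := hy (Fin.succ_pos j)
        exfalso
        linarith
    have hc0 : c 0 = 0 := by
      have h7 := hg0 0
      rw [hg] at h7
      simp only [hcs, zero_mul, Finset.sum_const_zero, add_zero] at h7
      exact h7
    funext j
    refine Fin.cases ?_ ?_ j
    · exact hc0
    · exact hcs

theorem exp_det_ne {p : ℕ} (x y : Fin p → ℝ) (hx : StrictMono x) (hy : StrictMono y) :
    (Matrix.of fun i j => Real.exp (y j * x i)).det ≠ 0 := by
  intro h
  obtain ⟨v, hv, hv0⟩ := Matrix.exists_mulVec_eq_zero_iff.2 h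
  apply hv
  apply exp_unique p y v x hy hx
  intro i
  have := congrFun hv0 i
  simp only [Matrix.mulVec, dotProduct, Matrix.of_apply, Pi.zero_apply] at this
  rw [← this]
  apply Finset.sum_congr rfl
  intro j _
  ring

theorem exp_det_pos {p : ℕ} (x y : Fin p → ℝ) (hx : StrictMono x) (hy : StrictMono y) :
    0 < (Matrix.of fun i j => Real.exp (y j * x i)).det := by
  set F : ℝ → ℝ := fun s => (Matrix.of fun (i j : Fin p) =>
    Real.exp (y j * ((1 - s) * x i + s * (i : ℝ)))).det with hF
  have hcont : Continuous F := by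
    rw [hF]
    apply Continuous.matrix_det
    apply continuous_matrix
    intro i j
    simp only [Matrix.of_apply]
    fun_prop
  have hne : ∀ s ∈ Set.Icc (0:ℝ) 1, F s ≠ 0 := by
    intro s hs
    apply exp_det_ne (fun i => (1 - s) * x i + s * ((i : ℕ) : ℝ)) y _ hy
    intro i j hij
    have h1 := hx hij
    have h2 : ((i : ℕ) : ℝ) < ((j : ℕ) : ℝ) := by exact_mod_cast hij
    simp only
    rcases eq_or_lt_of_le hs.1 with h0 | h0
    · rw [← h0]
      simpa using h1
    · have h3 : (1 - s) * x i ≤ (1 - s) * x j := mul_le_mul_of_nonneg_left h1.le (by linarith [hs.2])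
      have h4 : s * ((i : ℕ) : ℝ) < s * ((j : ℕ) : ℝ) := mul_lt_mul_of_pos_left h2 h0
      linarith
  have hpos1 : 0 < F 1 := by
    have h1 : F 1 = (Matrix.vandermonde (fun j => Real.exp (y j))).det := by
      rw [hF]
      simp only
      rw [← Matrix.det_transpose]
      congr 1
      ext i j
      simp only [Matrix.transpose_apply, Matrix.of_apply, Matrix.vandermonde_apply]
      rw [← Real.exp_nat_mul]
      congr 1
      ring
    rw [h1, Matrix.det_vandermonde]
    apply Finset.prod_pos
    intro i _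
    apply Finset.prod_pos
    intro j hj
    rw [Finset.mem_Ioi] at hj
    have := Real.exp_lt_exp.2 (hy hj)
    linarith
  have h0 : F 0 = (Matrix.of fun i j => Real.exp (y j * x i)).det := by
    rw [hF]
    simp
  rw [← h0]
  by_contra hneg
  push Not at hneg
  have hivt := intermediate_value_Icc (zero_le_one' ℝ) hcont.continuousOn
  obtain ⟨s, hs, hs0⟩ := hivt ⟨hneg, hpos1.le⟩
  exact hne s hs hs0

end Exp

section Middle

open Finset

/-- the block matrix with a finite block a and an infinite diagonal block e -/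
def Mid (n n' : ℕ) (a : ℕ → ℕ → ℝ) (e : ℕ → ℝ) (i j : ℕ) : ℝ :=
  if i < n ∧ j < n' then a i j else if n ≤ i ∧ n' ≤ j ∧ i - n = j - n' then e (i - n) else 0

theorem mid_tn (n n' : ℕ) (a : ℕ → ℕ → ℝ) (e : ℕ → ℝ)
    (ha : ∀ (p : ℕ) (I J : Fin p → ℕ), StrictMono I → StrictMono J → (∀ b, I b < n) →
      (∀ b, J b < n') → 0 ≤ (Matrix.of fun b c => a (I b) (J c)).det)
    (he : ∀ k, 0 < e k) :
    ∀ (p : ℕ) (I J : Fin p → ℕ), StrictMono I → StrictMono J →
      0 ≤ (Matrix.of fun b c => Mid n n' a e (I b) (J c)).det := by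
  intro p
  induction p with
  | zero => intro I J _ _; simp
  | succ p ih =>
    intro I J hI hJ
    have hIl : ∀ b, I b ≤ I (Fin.last p) := fun b => hI.monotone (Fin.le_last b)
    have hJl : ∀ b, J b ≤ J (Fin.last p) := fun b => hJ.monotone (Fin.le_last b)
    by_cases hIn : I (Fin.last p) < n
    · by_cases hJn : J (Fin.last p) < n'
      · have h1 : (Matrix.of fun b c => Mid n n' a e (I b) (J c))
            = (Matrix.of fun b c => a (I b) (J c)) := by
          ext b c
          simp only [Matrix.of_apply, Mid]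
          rw [if_pos ⟨lt_of_le_of_lt (hIl b) hIn, lt_of_le_of_lt (hJl c) hJn⟩]
        rw [h1]
        exact ha _ I J hI hJ (fun b => lt_of_le_of_lt (hIl b) hIn)
          (fun b => lt_of_le_of_lt (hJl b) hJn)
      · rw [Matrix.det_eq_zero_of_column_eq_zero (Fin.last p)]
        intro b
        simp only [Matrix.of_apply, Mid]
        have hb := lt_of_le_of_lt (hIl b) hIn
        rw [if_neg (by omega), if_neg (by omega)]
    · by_cases hJn : J (Fin.last p) < n'
      · rw [Matrix.det_eq_zero_of_row_eq_zero (Fin.last p)]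
        intro b
        simp only [Matrix.of_apply, Mid]
        have hb := lt_of_le_of_lt (hJl b) hJn
        rw [if_neg (by omega), if_neg (by omega)]
      · rcases lt_trichotomy (I (Fin.last p) - n) (J (Fin.last p) - n') with h | h | h
        · rw [Matrix.det_eq_zero_of_column_eq_zero (Fin.last p)]
          intro b
          simp only [Matrix.of_apply, Mid]
          have hb := hIl b
          rw [if_neg (by omega), if_neg (by omega)]
        · rw [Matrix.det_succ_row _ (Fin.last p), Fin.sum_univ_castSucc]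
          have hz : ∑ j : Fin p, (-1 : ℝ) ^ ((Fin.last p : ℕ) + (j.castSucc : ℕ)) *
              (Matrix.of fun b c => Mid n n' a e (I b) (J c)) (Fin.last p) j.castSucc *
              ((Matrix.of fun b c => Mid n n' a e (I b) (J c)).submatrix
                (Fin.last p).succAbove (j.castSucc).succAbove).det = 0 := by
            apply Finset.sum_eq_zero
            intro j _
            have h2 : (Matrix.of fun b c => Mid n n' a e (I b) (J c)) (Fin.last p) j.castSucc = 0 := by
              simp only [Matrix.of_apply, Mid]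
              have hj : J j.castSucc < J (Fin.last p) := hJ (Fin.castSucc_lt_last j)
              rw [if_neg (by omega), if_neg (by omega)]
            rw [h2]
            ring
          rw [hz, zero_add]
          have h3 : (Matrix.of fun b c => Mid n n' a e (I b) (J c)) (Fin.last p) (Fin.last p)
              = e (I (Fin.last p) - n) := by
            simp only [Matrix.of_apply, Mid]
            rw [if_neg (by omega), if_pos (by omega)]
          rw [h3]
          have h4 : 0 ≤ ((Matrix.of fun b c => Mid n n' a e (I b) (J c)).submatrix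
                (Fin.last p).succAbove (Fin.last p).succAbove).det := by
            have h5 := ih (fun b => I b.castSucc) (fun b => J b.castSucc)
              (fun i j hij => hI (Fin.castSucc_lt_castSucc_iff.2 hij))
              (fun i j hij => hJ (Fin.castSucc_lt_castSucc_iff.2 hij))
            have h6 : ((Matrix.of fun b c => Mid n n' a e (I b) (J c)).submatrix
                (Fin.last p).succAbove (Fin.last p).succAbove)
                = (Matrix.of fun b c => Mid n n' a e (I b.castSucc) (J c.castSucc)) := by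
              ext b c
              simp [Matrix.submatrix_apply, Fin.succAbove_last]
            rw [h6]
            exact h5
          have h7 : (-1 : ℝ) ^ ((Fin.last p : ℕ) + ((Fin.last p : Fin (p+1)) : ℕ)) = 1 := by
            rw [Fin.val_last, ← two_mul, pow_mul]
            simp
          rw [h7, one_mul]
          exact mul_nonneg (he _).le h4
        · rw [Matrix.det_eq_zero_of_row_eq_zero (Fin.last p)]
          intro b
          simp only [Matrix.of_apply, Mid]
          have hb := hJl b
          rw [if_neg (by omega), if_neg (by omega)]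

theorem split_sum (n n' L : ℕ) (a : ℕ → ℕ → ℝ) (e : ℕ → ℝ) (w v : ℕ → ℝ) :
    (∑ i ∈ range n, ∑ j ∈ range n', w i * a i j * v j)
      + ∑ k ∈ range L, e k * w (n + k) * v (n' + k)
    = ∑ i : Fin (n + L), w i * ∑ j : Fin (n' + L), Mid n n' a e i j * v j := by
  have h1 : ∀ i : ℕ, ∑ j : Fin (n' + L), Mid n n' a e i j * v j
      = ∑ j ∈ range (n' + L), Mid n n' a e i j * v j := by
    intro i
    exact Fin.sum_univ_eq_sum_range (fun j => Mid n n' a e i j * v j) (n' + L)
  simp only [h1]
  rw [Fin.sum_univ_eq_sum_range (fun i => w i * ∑ j ∈ range (n' + L), Mid n n' a e i j * v j) (n + L)]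
  rw [Finset.sum_range_add]
  congr 1
  · apply Finset.sum_congr rfl
    intro i hi
    rw [Finset.mem_range] at hi
    rw [Finset.sum_range_add]
    have h2 : ∑ k ∈ range L, Mid n n' a e i (n' + k) * v (n' + k) = 0 := by
      apply Finset.sum_eq_zero
      intro k _
      rw [Mid, if_neg (by omega), if_neg (by omega), zero_mul]
    rw [h2, add_zero, Finset.mul_sum]
    apply Finset.sum_congr rfl
    intro j hj
    rw [Finset.mem_range] at hj
    rw [Mid, if_pos ⟨hi, hj⟩]
    ring
  · apply Finset.sum_congr rfl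
    intro k hk
    rw [Finset.mem_range] at hk
    rw [Finset.sum_range_add]
    have h2 : ∑ j ∈ range n', Mid n n' a e (n + k) j * v j = 0 := by
      apply Finset.sum_eq_zero
      intro j hj
      rw [Finset.mem_range] at hj
      rw [Mid, if_neg (by omega), if_neg (by omega), zero_mul]
    rw [h2, zero_add, Finset.sum_eq_single k]
    · rw [Mid, if_neg (by omega), if_pos (by omega)]
      rw [Nat.add_sub_cancel_left]
      ring
    · intro l _ hl
      rw [Mid, if_neg (by omega), if_neg (by omega), zero_mul]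
    · intro hk'
      exact absurd (Finset.mem_range.2 hk) hk'

theorem lim_pos {p : ℕ} (n n' : ℕ) (a : ℕ → ℕ → ℝ) (e : ℕ → ℝ) (w v : ℕ → ℝ → ℝ)
    (x y : Fin p → ℝ)
    (ha : ∀ (p : ℕ) (I J : Fin p → ℕ), StrictMono I → StrictMono J → (∀ b, I b < n) →
      (∀ b, J b < n') → 0 ≤ (Matrix.of fun b c => a (I b) (J c)).det)
    (he : ∀ k, 0 < e k)
    (hw : ∀ I : Fin p → ℕ, StrictMono I → 0 < (Matrix.of fun b c => w (I c) (x b)).det)
    (hv : ∀ I : Fin p → ℕ, StrictMono I → 0 < (Matrix.of fun b c => v (I b) (y c)).det)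
    (hs : ∀ b c, Summable (fun k => e k * w (n + k) (x b) * v (n' + k) (y c))) :
    0 < (Matrix.of fun b c => (∑ i ∈ range n, ∑ j ∈ range n', w i (x b) * a i j * v j (y c))
      + ∑' k, e k * w (n + k) (x b) * v (n' + k) (y c)).det := by
  set c0 : ℝ := (Matrix.of fun b c : Fin p => w (n + (c : ℕ)) (x b)).det *
    ((∏ b : Fin p, e b) * (Matrix.of fun b c : Fin p => v (n' + (b : ℕ)) (y c)).det) with hc0
  have hc0pos : 0 < c0 := by
    have h1 := hw (fun c => n + (c : ℕ)) (fun i j hij => by
      have : (i : ℕ) < j := hij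
      simp only; omega)
    have h2 := hv (fun c => n' + (c : ℕ)) (fun i j hij => by
      have : (i : ℕ) < j := hij
      simp only; omega)
    exact mul_pos h1 (mul_pos (Finset.prod_pos fun b _ => he b) h2)
  -- finite truncations
  set D : ℕ → Matrix (Fin p) (Fin p) ℝ := fun L => Matrix.of fun b c =>
    (∑ i ∈ range n, ∑ j ∈ range n', w i (x b) * a i j * v j (y c))
      + ∑ k ∈ range L, e k * w (n + k) (x b) * v (n' + k) (y c) with hD
  have hlim : Tendsto (fun L => (D L).det) atTop (𝓝 (Matrix.of fun b c =>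
      (∑ i ∈ range n, ∑ j ∈ range n', w i (x b) * a i j * v j (y c))
      + ∑' k, e k * w (n + k) (x b) * v (n' + k) (y c)).det) := by
    have hcd : Continuous (fun M : Matrix (Fin p) (Fin p) ℝ => M.det) := Continuous.matrix_det continuous_id
    apply (hcd.tendsto _).comp
    refine tendsto_pi_nhds.2 fun b => tendsto_pi_nhds.2 fun c => ?_
    simp only [hD, Matrix.of_apply]
    exact tendsto_const_nhds.add (hs b c).hasSum.tendsto_sum_nat
  have hge : ∀ L, p ≤ L → c0 ≤ (D L).det := by
    intro L hL
    set P : Matrix (Fin p) (Fin (n + L)) ℝ := Matrix.of fun b i => w i (x b) with hP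
    set Mm : Matrix (Fin (n + L)) (Fin (n' + L)) ℝ := Matrix.of fun i j => Mid n n' a e i j with hMm
    set Q : Matrix (Fin (n' + L)) (Fin p) ℝ := Matrix.of fun j c => v j (y c) with hQ
    have hDL : D L = P * (Mm * Q) := by
      ext b c
      simp only [hD, hP, hMm, hQ, Matrix.mul_apply, Matrix.of_apply]
      exact split_sum n n' L a e (fun i => w i (x b)) (fun j => v j (y c))
    have hterm : ∀ f : Fin p ↪o Fin (n + L), 0 ≤ ((Mm * Q).submatrix f id).det := by
      intro f
      have h1 : (Mm * Q).submatrix f id = (Mm.submatrix f id) * Q := by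
        ext b c
        simp [Matrix.mul_apply]
      rw [h1, cauchyBinet]
      apply Finset.sum_nonneg
      intro g _
      apply mul_nonneg
      · exact mid_tn n n' a e ha he p (fun b => (f b : ℕ)) (fun b => (g b : ℕ))
          (fun i j hij => f.strictMono hij) (fun i j hij => g.strictMono hij)
      · exact (hv (fun b => (g b : ℕ)) (fun i j hij => g.strictMono hij)).le
    set f0 : Fin p ↪o Fin (n + L) := OrderEmbedding.ofStrictMono
      (fun b => (⟨n + (b : ℕ), by omega⟩ : Fin (n + L))) (fun i j hij => by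
        have : (i : ℕ) < j := hij
        rw [Fin.lt_def]
        simp only
        omega) with hf0
    set g0 : Fin p ↪o Fin (n' + L) := OrderEmbedding.ofStrictMono
      (fun b => (⟨n' + (b : ℕ), by omega⟩ : Fin (n' + L))) (fun i j hij => by
        have : (i : ℕ) < j := hij
        rw [Fin.lt_def]
        simp only
        omega) with hg0
    rw [hDL, cauchyBinet]
    have hsingle := Finset.single_le_sum (s := Finset.univ)
      (f := fun f : Fin p ↪o Fin (n + L) => (P.submatrix id f).det * ((Mm * Q).submatrix f id).det)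
      (fun f _ => mul_nonneg
        (hw (fun b => (f b : ℕ)) (fun i j hij => f.strictMono hij)).le (hterm f)) (Finset.mem_univ f0)
    refine le_trans ?_ hsingle
    have hPf : (P.submatrix id f0).det = (Matrix.of fun b c : Fin p => w (n + (c : ℕ)) (x b)).det := by
      rfl
    rw [hPf, hc0]
    apply mul_le_mul_of_nonneg_left _ (hw (fun c => n + (c : ℕ)) (fun i j hij => by
      have : (i : ℕ) < j := hij
      simp only; omega)).le
    have h1 : (Mm * Q).submatrix f0 id = (Mm.submatrix f0 id) * Q := by
      ext b c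
      simp [Matrix.mul_apply]
    rw [h1, cauchyBinet]
    have hsingle2 := Finset.single_le_sum (s := Finset.univ)
      (f := fun g : Fin p ↪o Fin (n' + L) =>
        ((Mm.submatrix f0 id).submatrix id g).det * (Q.submatrix g id).det)
      (fun g _ => mul_nonneg
        (mid_tn n n' a e ha he p (fun b => (f0 b : ℕ)) (fun b => (g b : ℕ))
          (fun i j hij => f0.strictMono hij) (fun i j hij => g.strictMono hij))
        (hv (fun b => (g b : ℕ)) (fun i j hij => g.strictMono hij)).le) (Finset.mem_univ g0)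
    refine le_trans ?_ hsingle2
    have hMd : ((Mm.submatrix f0 id).submatrix id g0) = Matrix.diagonal (fun b : Fin p => e b) := by
      ext b c
      simp only [hMm, hf0, hg0, Matrix.submatrix_apply, Matrix.of_apply, id,
        OrderEmbedding.coe_ofStrictMono]
      by_cases hbc : b = c
      · subst hbc
        rw [Matrix.diagonal_apply_eq, Mid, if_neg (by omega), if_pos (by omega)]
        congr 1
        omega
      · rw [Matrix.diagonal_apply_ne _ hbc, Mid, if_neg (by omega), if_neg]
        intro h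
        apply hbc
        apply Fin.ext
        omega
    rw [hMd, Matrix.det_diagonal]
    have hQg : (Q.submatrix g0 id).det = (Matrix.of fun b c : Fin p => v (n' + (b : ℕ)) (y c)).det := by
      rfl
    rw [hQg]
  have := ge_of_tendsto hlim (eventually_atTop.2 ⟨p, fun L hL => hge L hL⟩)
  linarith

end Middle

section Weights

open Finset

/-- Gaussian weights -/
noncomputable def W (b : ℝ) (n : ℕ) (s : ℕ → ℝ) (i : ℕ) (x : ℝ) : ℝ :=
  Real.exp (-(b * (x - s i) ^ 2)) / ∑ k ∈ range n, Real.exp (-(b * (x - s k) ^ 2))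

theorem N_pos (b : ℝ) (n : ℕ) (s : ℕ → ℝ) (x : ℝ) (hn : 0 < n) :
    0 < ∑ k ∈ range n, Real.exp (-(b * (x - s k) ^ 2)) :=
  Finset.sum_pos (fun _ _ => Real.exp_pos _) ⟨0, Finset.mem_range.2 hn⟩

theorem W_pos (b : ℝ) (n : ℕ) (s : ℕ → ℝ) (i : ℕ) (x : ℝ) (hn : 0 < n) : 0 < W b n s i x :=
  div_pos (Real.exp_pos _) (N_pos b n s x hn)

theorem W_sum (b : ℝ) (n : ℕ) (s : ℕ → ℝ) (x : ℝ) (hn : 0 < n) :
    ∑ i ∈ range n, W b n s i x = 1 := by
  unfold W
  rw [← Finset.sum_div]
  exact div_self (N_pos b n s x hn).ne'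

theorem W_far (b : ℝ) (n : ℕ) (s : ℕ → ℝ) (i i0 : ℕ) (x r d : ℝ) (hb : 0 ≤ b) (hi0 : i0 < n)
    (h0 : |x - s i0| ≤ r) (hd : 0 ≤ d) (hfar : d ≤ |x - s i|) :
    W b n s i x ≤ Real.exp (-(b * (d ^ 2 - r ^ 2))) := by
  unfold W
  rw [div_le_iff₀ (N_pos b n s x (by omega))]
  have h1 : Real.exp (-(b * (x - s i0) ^ 2)) ≤ ∑ k ∈ range n, Real.exp (-(b * (x - s k) ^ 2)) :=
    Finset.single_le_sum (f := fun k => Real.exp (-(b * (x - s k) ^ 2)))
      (fun _ _ => (Real.exp_pos _).le) (Finset.mem_range.2 hi0)
  have h2 : (x - s i0) ^ 2 ≤ r ^ 2 := by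
    rw [← sq_abs]
    exact pow_le_pow_left₀ (abs_nonneg _) h0 2
  have h3 : d ^ 2 ≤ (x - s i) ^ 2 := by
    rw [← sq_abs (x - s i)]
    exact pow_le_pow_left₀ hd hfar 2
  calc Real.exp (-(b * (x - s i) ^ 2))
      ≤ Real.exp (-(b * (d ^ 2 - r ^ 2))) * Real.exp (-(b * (x - s i0) ^ 2)) := by
        rw [← Real.exp_add, Real.exp_le_exp]
        nlinarith
    _ ≤ _ := mul_le_mul_of_nonneg_left h1 (Real.exp_pos _).le

theorem W_det (b : ℝ) (n : ℕ) (s : ℕ → ℝ) (hn : 0 < n) (hb : 0 < b) (hs : StrictMono s)
    {p : ℕ} (x : Fin p → ℝ) (hx : StrictMono x) (I : Fin p → ℕ) (hI : StrictMono I) :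
    0 < (Matrix.of fun r c => W b n s (I c) (x r)).det := by
  have h1 : (Matrix.of fun r c => W b n s (I c) (x r))
      = Matrix.of (fun r c => (Real.exp (-(b * (x r) ^ 2)) /
          ∑ k ∈ range n, Real.exp (-(b * (x r - s k) ^ 2))) *
        (Matrix.of (fun r c => Real.exp (-(b * (s (I c)) ^ 2)) *
          (Matrix.of (fun r c => Real.exp ((2 * b * s (I c)) * x r))) r c)) r c) := by
    ext r c
    simp only [Matrix.of_apply]
    unfold W
    rw [div_mul_eq_mul_div]
    congr 1
    rw [← Real.exp_add, ← Real.exp_add]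
    congr 1
    ring
  rw [h1]
  have h2 := Matrix.det_mul_column (fun r : Fin p => (Real.exp (-(b * (x r) ^ 2)) /
          ∑ k ∈ range n, Real.exp (-(b * (x r - s k) ^ 2))))
        (Matrix.of (fun r c : Fin p => Real.exp (-(b * (s (I c)) ^ 2)) *
          (Matrix.of (fun r c : Fin p => Real.exp ((2 * b * s (I c)) * x r))) r c))
  rw [h2]
  have h3 := Matrix.det_mul_row (fun c : Fin p => Real.exp (-(b * (s (I c)) ^ 2)))
    (Matrix.of (fun r c : Fin p => Real.exp ((2 * b * s (I c)) * x r)))
  rw [h3]
  apply mul_pos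
  · apply Finset.prod_pos
    intro r _
    exact div_pos (Real.exp_pos _) (N_pos b n s (x r) hn)
  · apply mul_pos
    · apply Finset.prod_pos
      intro r _
      exact Real.exp_pos _
    · apply exp_det_pos x (fun c => 2 * b * s (I c)) hx
      intro i j hij
      have := hs (hI hij)
      simp only
      have h4 : 0 < 2 * b := by linarith
      exact mul_lt_mul_of_pos_left this h4

end Weights

section Nodes

theorem nodes (X : Set ℝ) (hX : X.Nonempty) (m : ℕ) : ∃ (n : ℕ) (s : ℕ → ℝ), 0 < n ∧
    StrictMono s ∧ (∀ i < n, s i ∈ X) ∧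
    (∀ x ∈ X, |x| ≤ m → ∃ i < n, |x - s i| ≤ 1 / ((m : ℝ) + 1)) ∧
    (∀ i, n ≤ i → (m : ℝ) + 1 ≤ s i) := by
  classical
  obtain ⟨x0, hx0⟩ := hX
  have htb : TotallyBounded (X ∩ Set.Icc (-(m:ℝ)) m) :=
    (isCompact_Icc.totallyBounded).subset Set.inter_subset_right
  have hpos : 0 < 1 / ((m : ℝ) + 1) := by positivity
  obtain ⟨t, htX, htf, hcov⟩ := Metric.finite_approx_of_totallyBounded htb _ hpos
  set S : Finset ℝ := insert x0 htf.toFinset with hS
  have hSne : S.Nonempty := ⟨x0, Finset.mem_insert_self _ _⟩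
  have hSX : ∀ z ∈ S, z ∈ X := by
    intro z hz
    rw [hS, Finset.mem_insert] at hz
    rcases hz with hz | hz
    · rw [hz]; exact hx0
    · exact (htX (htf.mem_toFinset.1 hz)).1
  set emb := S.orderEmbOfFin rfl with hemb
  set R : ℝ := max m (S.max' hSne) with hR
  have hRm : (m : ℝ) ≤ R := le_max_left _ _
  have hRS : ∀ z ∈ S, z ≤ R := fun z hz => le_trans (S.le_max' z hz) (le_max_right _ _)
  set s : ℕ → ℝ := fun i => if h : i < S.card then emb ⟨i, h⟩ else R + 1 + ((i : ℝ) - S.card) with hs
  have hs1 : ∀ i (h : i < S.card), s i = emb ⟨i, h⟩ := by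
    intro i h
    simp only [hs, dif_pos h]
  have hs2 : ∀ i, ¬ i < S.card → s i = R + 1 + ((i : ℝ) - S.card) := by
    intro i h
    simp only [hs, dif_neg h]
  have hmem : ∀ i (h : i < S.card), s i ∈ S := by
    intro i h
    rw [hs1 i h]
    exact Finset.orderEmbOfFin_mem S rfl _
  refine ⟨S.card, s, Finset.card_pos.2 hSne, ?_, ?_, ?_, ?_⟩
  · intro i j hij
    by_cases hj : j < S.card
    · have hi : i < S.card := lt_trans hij hj
      rw [hs1 i hi, hs1 j hj]
      exact emb.strictMono hij
    · by_cases hi : i < S.card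
      · have h1 := hRS _ (hmem i hi)
        rw [hs2 j hj]
        have h2 : (S.card : ℝ) ≤ j := by exact_mod_cast (not_lt.1 hj)
        linarith
      · rw [hs2 i hi, hs2 j hj]
        have h2 : (i : ℝ) < j := by exact_mod_cast hij
        linarith
  · intro i hi
    exact hSX _ (hmem i hi)
  · intro x hx hxm
    have hxin : x ∈ X ∩ Set.Icc (-(m:ℝ)) m := ⟨hx, abs_le.1 hxm⟩
    have := hcov hxin
    simp only [Set.mem_iUnion, Metric.mem_ball, exists_prop] at this
    obtain ⟨z, hz, hzx⟩ := this
    have hzS : z ∈ S := by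
      rw [hS, Finset.mem_insert]
      right
      exact htf.mem_toFinset.2 hz
    have hr : z ∈ Set.range emb := by
      rw [hemb, Finset.range_orderEmbOfFin]
      exact hzS
    obtain ⟨i, hi⟩ := hr
    refine ⟨i, i.2, ?_⟩
    rw [hs1 i i.2]
    rw [Real.dist_eq] at hzx
    simp only [Fin.eta]
    rw [hi]
    exact hzx.le
  · intro i hi
    rw [hs2 i (not_lt.2 hi)]
    have h2 : (S.card : ℝ) ≤ i := by exact_mod_cast hi
    linarith

end Nodes

section Approx

open Finset

/-- the approximating kernel -/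
noncomputable def App (K : ℝ → ℝ → ℝ) (C : ℝ) (n n' : ℕ) (s t : ℕ → ℝ) (x y : ℝ) : ℝ :=
  (∑ i ∈ range n, ∑ j ∈ range n', W C n s i x * K (s i) (t j) * W C n' t j y)
    + ∑' k : ℕ, (1 / 2 : ℝ) ^ k * W C n s (n + k) x * W C n' t (n' + k) y

theorem W_le (b : ℝ) (n : ℕ) (s : ℕ → ℝ) (i : ℕ) (x : ℝ) (hn : 0 < n) (hb : 0 ≤ b) :
    W b n s i x ≤ 1 / ∑ k ∈ range n, Real.exp (-(b * (x - s k) ^ 2)) := by
  unfold W
  apply div_le_div_of_nonneg_right _ (N_pos b n s x hn).le
  rw [Real.exp_le_one_iff]
  nlinarith [mul_nonneg hb (sq_nonneg (x - s i))]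

theorem app_summable (C : ℝ) (n n' : ℕ) (s t : ℕ → ℝ) (x y : ℝ) (hn : 0 < n) (hn' : 0 < n')
    (hC : 0 ≤ C) :
    Summable (fun k : ℕ => (1 / 2 : ℝ) ^ k * W C n s (n + k) x * W C n' t (n' + k) y) := by
  set A := 1 / ∑ k ∈ range n, Real.exp (-(C * (x - s k) ^ 2)) with hA
  set A' := 1 / ∑ k ∈ range n', Real.exp (-(C * (y - t k) ^ 2)) with hA'
  have hA0 : 0 ≤ A := (one_div_pos.2 (N_pos C n s x hn)).le
  have hsum : Summable (fun k : ℕ => (1 / 2 : ℝ) ^ k * (A * A')) :=
    (summable_geometric_of_lt_one (by norm_num) (by norm_num)).mul_right _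
  apply Summable.of_nonneg_of_le _ _ hsum
  · intro k
    have h1 := W_pos C n s (n + k) x hn
    have h2 := W_pos C n' t (n' + k) y hn'
    positivity
  · intro k
    have h1 := W_le C n s (n + k) x hn hC
    have h2 := W_le C n' t (n' + k) y hn' hC
    rw [mul_assoc]
    apply mul_le_mul_of_nonneg_left _ (by positivity)
    exact mul_le_mul h1 h2 (W_pos C n' t (n' + k) y hn').le hA0

theorem app_est (K : ℝ → ℝ → ℝ) (C : ℝ) (n n' : ℕ) (s t : ℕ → ℝ) (x y : ℝ) (B δ r ε' : ℝ)
    (hn : 0 < n) (hn' : 0 < n') (hC : 0 ≤ C) (i0 j0 : ℕ) (hi0 : i0 < n) (hj0 : j0 < n')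
    (hxi : |x - s i0| ≤ r) (hyj : |y - t j0| ≤ r)
    (hB : ∀ i < n, ∀ j < n', |K (s i) (t j)| ≤ B) (hB0 : 0 ≤ B) (hδ : 0 ≤ δ) (hε' : 0 ≤ ε')
    (hcont : ∀ i < n, ∀ j < n', |x - s i| < δ → |y - t j| < δ → |K (s i) (t j) - K x y| ≤ ε')
    (hfX : ∀ i, n ≤ i → 1 ≤ |x - s i|) (hfY : ∀ j, n' ≤ j → 1 ≤ |y - t j|) (hr0 : 0 ≤ r)
    (hr : r ≤ 1) :
    |App K C n n' s t x y - K x y| ≤ ε' + (B + |K x y|) *
      (((n : ℝ) + n') * Real.exp (-(C * (δ ^ 2 - r ^ 2)))) + 2 * Real.exp (-(C * (1 - r ^ 2))) := by
  set E := Real.exp (-(C * (δ ^ 2 - r ^ 2))) with hE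
  set E1 := Real.exp (-(C * (1 - r ^ 2))) with hE1
  set w : ℕ → ℝ := fun i => W C n s i x with hw
  set v : ℕ → ℝ := fun j => W C n' t j y with hv
  have hw0 : ∀ i, 0 ≤ w i := fun i => (W_pos C n s i x hn).le
  have hv0 : ∀ j, 0 ≤ v j := fun j => (W_pos C n' t j y hn').le
  have hw1 : ∑ i ∈ range n, w i = 1 := W_sum C n s x hn
  have hv1 : ∑ j ∈ range n', v j = 1 := W_sum C n' t y hn'
  set M := B + |K x y| with hM
  have hM0 : 0 ≤ M := by positivity
  classical
  set g : ℕ → ℝ := fun i => if δ ≤ |x - s i| then 1 else 0 with hg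
  set h : ℕ → ℝ := fun j => if δ ≤ |y - t j| then 1 else 0 with hh
  have hg0 : ∀ i, 0 ≤ g i := by intro i; simp only [hg]; split_ifs <;> norm_num
  have hh0 : ∀ i, 0 ≤ h i := by intro i; simp only [hh]; split_ifs <;> norm_num
  have hwg : ∑ i ∈ range n, w i * g i ≤ n * E := by
    calc ∑ i ∈ range n, w i * g i ≤ ∑ i ∈ range n, E := by
          apply Finset.sum_le_sum
          intro i _
          simp only [hg]
          split_ifs with hd
          · rw [mul_one]
            exact W_far C n s i i0 x r δ hC hi0 hxi hδ hd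
          · rw [mul_zero]
            exact (Real.exp_pos _).le
      _ = n * E := by rw [Finset.sum_const, Finset.card_range, nsmul_eq_mul]
  have hvh : ∑ j ∈ range n', v j * h j ≤ n' * E := by
    calc ∑ j ∈ range n', v j * h j ≤ ∑ j ∈ range n', E := by
          apply Finset.sum_le_sum
          intro j _
          simp only [hh]
          split_ifs with hd
          · rw [mul_one]
            exact W_far C n' t j j0 y r δ hC hj0 hyj hδ hd
          · rw [mul_zero]
            exact (Real.exp_pos _).le
      _ = n' * E := by rw [Finset.sum_const, Finset.card_range, nsmul_eq_mul]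
  have hdiff : ∀ i ∈ range n, ∀ j ∈ range n', |K (s i) (t j) - K x y| ≤ ε' + M * (g i + h j) := by
    intro i hi j hj
    rw [Finset.mem_range] at hi hj
    by_cases h1 : |x - s i| < δ
    · by_cases h2 : |y - t j| < δ
      · have := hcont i hi j hj h1 h2
        have h3 : 0 ≤ M * (g i + h j) := mul_nonneg hM0 (add_nonneg (hg0 i) (hh0 j))
        linarith
      · have h3 : h j = 1 := by simp only [hh]; rw [if_pos (not_lt.1 h2)]
        rw [h3]
        have h4 := hB i hi j hj
        have h5 : |K (s i) (t j) - K x y| ≤ |K (s i) (t j)| + |K x y| := abs_sub _ _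
        have h6 : 0 ≤ M * g i := mul_nonneg hM0 (hg0 i)
        rw [hM] at *
        linarith
    · have h3 : g i = 1 := by simp only [hg]; rw [if_pos (not_lt.1 h1)]
      rw [h3]
      have h4 := hB i hi j hj
      have h5 : |K (s i) (t j) - K x y| ≤ |K (s i) (t j)| + |K x y| := abs_sub _ _
      have h6 : 0 ≤ M * h j := mul_nonneg hM0 (hh0 j)
      rw [hM] at *
      linarith
  have hmain : |(∑ i ∈ range n, ∑ j ∈ range n', w i * K (s i) (t j) * v j) - K x y|
      ≤ ε' + M * (((n : ℝ) + n') * E) := by
    have h1 : (∑ i ∈ range n, ∑ j ∈ range n', w i * K (s i) (t j) * v j) - K x y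
        = ∑ i ∈ range n, ∑ j ∈ range n', w i * v j * (K (s i) (t j) - K x y) := by
      have h2 : K x y = ∑ i ∈ range n, ∑ j ∈ range n', w i * v j * K x y := by
        have h3 : ∀ i, ∑ j ∈ range n', w i * v j * K x y = w i * K x y := by
          intro i
          rw [← Finset.sum_mul, ← Finset.mul_sum, hv1, mul_one]
        simp only [h3]
        rw [← Finset.sum_mul, hw1, one_mul]
      conv_lhs => rw [h2]
      rw [← Finset.sum_sub_distrib]
      apply Finset.sum_congr rfl
      intro i _
      rw [← Finset.sum_sub_distrib]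
      apply Finset.sum_congr rfl
      intro j _
      ring
    rw [h1]
    calc |∑ i ∈ range n, ∑ j ∈ range n', w i * v j * (K (s i) (t j) - K x y)|
        ≤ ∑ i ∈ range n, |∑ j ∈ range n', w i * v j * (K (s i) (t j) - K x y)| :=
          Finset.abs_sum_le_sum_abs _ _
      _ ≤ ∑ i ∈ range n, ∑ j ∈ range n', w i * v j * (ε' + M * (g i + h j)) := by
          apply Finset.sum_le_sum
          intro i hi
          refine le_trans (Finset.abs_sum_le_sum_abs _ _) ?_
          apply Finset.sum_le_sum
          intro j hj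
          rw [abs_mul, abs_of_nonneg (mul_nonneg (hw0 i) (hv0 j))]
          exact mul_le_mul_of_nonneg_left (hdiff i hi j hj) (mul_nonneg (hw0 i) (hv0 j))
      _ = ε' + M * ((∑ i ∈ range n, w i * g i) + ∑ j ∈ range n', v j * h j) := by
          have h4 : ∀ i, ∑ j ∈ range n', w i * v j * (ε' + M * (g i + h j))
              = w i * ε' + M * (w i * g i) + w i * (M * ∑ j ∈ range n', v j * h j) := by
            intro i
            have h5 : ∀ j, w i * v j * (ε' + M * (g i + h j))
                = (w i * ε' + M * (w i * g i)) * v j + w i * (M * (v j * h j)) := by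
              intro j; ring
            simp only [h5]
            rw [Finset.sum_add_distrib, ← Finset.mul_sum, hv1, mul_one, ← Finset.mul_sum,
              ← Finset.mul_sum]
          simp only [h4]
          rw [Finset.sum_add_distrib, Finset.sum_add_distrib, ← Finset.sum_mul, ← Finset.sum_mul,
            hw1, ← Finset.mul_sum]
          ring
      _ ≤ ε' + M * (((n : ℝ) + n') * E) := by
          have h6 := mul_le_mul_of_nonneg_left (add_le_add hwg hvh) hM0
          rw [← add_mul] at h6
          linarith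
  have hE1le : E1 ≤ 1 := by
    rw [hE1, Real.exp_le_one_iff]
    have : r ^ 2 ≤ 1 := by nlinarith
    nlinarith [mul_nonneg hC (sub_nonneg.2 this)]
  have hextra : |∑' k : ℕ, (1 / 2 : ℝ) ^ k * w (n + k) * v (n' + k)| ≤ 2 * E1 := by
    have hnn : ∀ k : ℕ, 0 ≤ (1 / 2 : ℝ) ^ k * w (n + k) * v (n' + k) := fun k =>
      mul_nonneg (mul_nonneg (by positivity) (hw0 _)) (hv0 _)
    rw [abs_of_nonneg (tsum_nonneg hnn)]
    have hsum2 : Summable (fun k : ℕ => (1 / 2 : ℝ) ^ k * E1) :=
      (summable_geometric_of_lt_one (by norm_num) (by norm_num)).mul_right _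
    calc ∑' k : ℕ, (1 / 2 : ℝ) ^ k * w (n + k) * v (n' + k) ≤ ∑' k : ℕ, (1 / 2 : ℝ) ^ k * E1 := by
          apply (app_summable C n n' s t x y hn hn' hC).tsum_le_tsum _ hsum2
          intro k
          rw [mul_assoc]
          apply mul_le_mul_of_nonneg_left _ (by positivity)
          have h7 : w (n + k) ≤ E1 := by
            have := W_far C n s (n + k) i0 x r 1 hC hi0 hxi (by norm_num) (hfX _ (by omega))
            rw [one_pow] at this
            exact this
          have h8 : v (n' + k) ≤ E1 := by
            have := W_far C n' t (n' + k) j0 y r 1 hC hj0 hyj (by norm_num) (hfY _ (by omega))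
            rw [one_pow] at this
            exact this
          calc w (n + k) * v (n' + k) ≤ E1 * 1 :=
                mul_le_mul h7 (h8.trans hE1le) (hv0 _) (Real.exp_pos _).le
            _ = E1 := mul_one _
      _ = 2 * E1 := by
          rw [tsum_mul_right, tsum_geometric_two]
  have happ : App K C n n' s t x y = (∑ i ∈ range n, ∑ j ∈ range n', w i * K (s i) (t j) * v j)
      + ∑' k : ℕ, (1 / 2 : ℝ) ^ k * w (n + k) * v (n' + k) := rfl
  rw [happ]
  calc |(∑ i ∈ range n, ∑ j ∈ range n', w i * K (s i) (t j) * v j)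
      + ∑' k : ℕ, (1 / 2 : ℝ) ^ k * w (n + k) * v (n' + k) - K x y|
      = |((∑ i ∈ range n, ∑ j ∈ range n', w i * K (s i) (t j) * v j) - K x y)
      + ∑' k : ℕ, (1 / 2 : ℝ) ^ k * w (n + k) * v (n' + k)| := by
        congr 1; ring
    _ ≤ _ := abs_add_le _ _
    _ ≤ _ := add_le_add hmain hextra

theorem decay (c ε : ℝ) (hc : 0 < c) (hε : 0 < ε) :
    ∃ U : ℝ, ∀ u, U ≤ u → 4 * u ^ 2 * Real.exp (-(c * u)) < ε := by
  have h1 : Tendsto (fun u : ℝ => c * u) atTop atTop := tendsto_id.const_mul_atTop hc
  have h2 := (Real.tendsto_pow_mul_exp_neg_atTop_nhds_zero 2).comp h1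
  have h3 := h2.const_mul (4 / c ^ 2)
  rw [mul_zero] at h3
  have h4 := h3.eventually (gt_mem_nhds hε)
  rw [eventually_atTop] at h4
  obtain ⟨U, hU⟩ := h4
  refine ⟨U, fun u hu => ?_⟩
  have h5 := hU u hu
  simp only [Function.comp] at h5
  have h6 : 4 / c ^ 2 * ((c * u) ^ 2 * Real.exp (-(c * u))) = 4 * u ^ 2 * Real.exp (-(c * u)) := by
    field_simp
  rw [h6] at h5
  exact h5

end Approx

/-- Q1 is true: every totally nonnegative kernel on a product of two infinite sets of reals is the
limit, at each of its points of continuity, of a sequence of totally positive kernels. -/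
theorem result (X Y : Set ℝ) (hX : X.Infinite) (hY : Y.Infinite) (K : X → Y → ℝ) (hK : TN K) :
    ∃ Km : ℕ → X → Y → ℝ, (∀ m, TP (Km m)) ∧ ∀ (x : X) (y : Y),
      ContinuousAt (fun q : X × Y => K q.1 q.2) (x, y) →
        Tendsto (fun m => Km m x y) atTop (𝓝 (K x y)) := by
  classical
  set K' : ℝ → ℝ → ℝ := fun x y => if h : x ∈ X ∧ y ∈ Y then K ⟨x, h.1⟩ ⟨y, h.2⟩ else 0 with hK'
  have hK'eq : ∀ (x : X) (y : Y), K' x y = K x y := by
    intro x y
    simp only [hK']
    rw [dif_pos ⟨x.2, y.2⟩]
  choose n s hn hs hsX hsnear hsfar using nodes X hX.nonempty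
  choose n' t hn' ht htY htnear htfar using nodes Y hY.nonempty
  set B : ℕ → ℝ := fun m => ∑ i ∈ Finset.range (n m), ∑ j ∈ Finset.range (n' m),
    |K' (s m i) (t m j)| with hB
  have hB0 : ∀ m, 0 ≤ B m := fun m => Finset.sum_nonneg fun i _ => Finset.sum_nonneg fun j _ =>
    abs_nonneg _
  have hBle : ∀ m, ∀ i < n m, ∀ j < n' m, |K' (s m i) (t m j)| ≤ B m := by
    intro m i hi j hj
    have h1 : |K' (s m i) (t m j)| ≤ ∑ j ∈ Finset.range (n' m), |K' (s m i) (t m j)| :=
      Finset.single_le_sum (f := fun j => |K' (s m i) (t m j)|) (fun _ _ => abs_nonneg _)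
        (Finset.mem_range.2 hj)
    have h2 : ∑ j ∈ Finset.range (n' m), |K' (s m i) (t m j)| ≤ B m :=
      Finset.single_le_sum (f := fun i => ∑ j ∈ Finset.range (n' m), |K' (s m i) (t m j)|)
        (fun _ _ => Finset.sum_nonneg fun _ _ => abs_nonneg _) (Finset.mem_range.2 hi)
    exact h1.trans h2
  set C : ℕ → ℝ := fun m => (n m : ℝ) + n' m + B m + m + 1 with hC
  have hCpos : ∀ m, 0 < C m := by
    intro m
    have := hB0 m
    simp only [hC]
    positivity
  refine ⟨fun m x y => App K' (C m) (n m) (n' m) (s m) (t m) x y, ?_, ?_⟩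
  · intro m p x y hx hy
    have hx' : StrictMono (fun i => (x i : ℝ)) := fun i j hij => hx hij
    have hy' : StrictMono (fun i => (y i : ℝ)) := fun i j hij => hy hij
    apply lim_pos (n m) (n' m) (fun i j => K' (s m i) (t m j)) (fun k => (1 / 2 : ℝ) ^ k)
      (fun i x => W (C m) (n m) (s m) i x) (fun i y => W (C m) (n' m) (t m) i y)
      (fun i => (x i : ℝ)) (fun i => (y i : ℝ))
    · intro q I J hI hJ hIn hJn
      have h1 := hK q (fun b => ⟨s m (I b), hsX m _ (hIn b)⟩) (fun b => ⟨t m (J b), htY m _ (hJn b)⟩)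
        (fun i j hij => hs m (hI hij)) (fun i j hij => ht m (hJ hij))
      have h2 : (Matrix.of fun b c => K' (s m (I b)) (t m (J c)))
          = (Matrix.of fun b c => K ⟨s m (I b), hsX m _ (hIn b)⟩ ⟨t m (J c), htY m _ (hJn c)⟩) := by
        ext b c
        simp only [Matrix.of_apply, hK']
        rw [dif_pos ⟨hsX m _ (hIn b), htY m _ (hJn c)⟩]
      rw [h2]
      exact h1
    · intro k
      positivity
    · intro I hI
      exact W_det (C m) (n m) (s m) (hn m) (hCpos m) (hs m) _ hx' I hI
    · intro I hI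
      have h1 := W_det (C m) (n' m) (t m) (hn' m) (hCpos m) (ht m) _ hy' I hI
      rw [← Matrix.det_transpose] at h1
      exact h1
    · intro b c
      exact app_summable (C m) (n m) (n' m) (s m) (t m) (x b) (y c) (hn m) (hn' m) (hCpos m).le
  · intro x y hc
    rw [Metric.tendsto_atTop]
    intro ε hε
    rw [Metric.continuousAt_iff] at hc
    obtain ⟨δ, hδ, hδc⟩ := hc (ε / 2) (by linarith)
    set c : ℝ := min (δ ^ 2 / 2) (1 / 2) with hcdef
    have hcpos : 0 < c := lt_min (by positivity) (by norm_num)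
    obtain ⟨U, hU⟩ := decay c (ε / 2) hcpos (by linarith)
    obtain ⟨N, hN⟩ := exists_nat_ge (max (max U (|K x y|)) (max (max |(x : ℝ)| |(y : ℝ)|)
      (max (2 / δ ^ 2) 2)))
    refine ⟨N, fun m hm => ?_⟩
    have hmN : (N : ℝ) ≤ m := by exact_mod_cast hm
    have hm1 : U ≤ (m : ℝ) := (le_trans (le_trans (le_max_left _ _) (le_max_left _ _)) hN).trans hmN
    have hm2 : |K x y| ≤ (m : ℝ) :=
      (le_trans (le_trans (le_max_right _ _) (le_max_left _ _)) hN).trans hmN
    have hm3 : |(x : ℝ)| ≤ (m : ℝ) := (le_trans (le_trans (le_trans (le_max_left _ _)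
      (le_max_left _ _)) (le_max_right _ _)) hN).trans hmN
    have hm4 : |(y : ℝ)| ≤ (m : ℝ) := (le_trans (le_trans (le_trans (le_max_right _ _)
      (le_max_left _ _)) (le_max_right _ _)) hN).trans hmN
    have hm5 : 2 / δ ^ 2 ≤ (m : ℝ) := (le_trans (le_trans (le_trans (le_max_left _ _)
      (le_max_right _ _)) (le_max_right _ _)) hN).trans hmN
    have hm6 : (2 : ℝ) ≤ (m : ℝ) := (le_trans (le_trans (le_trans (le_max_right _ _)
      (le_max_right _ _)) (le_max_right _ _)) hN).trans hmN
    obtain ⟨i0, hi0, hxi⟩ := hsnear m x x.2 hm3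
    obtain ⟨j0, hj0, hyj⟩ := htnear m y y.2 hm4
    set r : ℝ := 1 / ((m : ℝ) + 1) with hr
    have hr0 : 0 ≤ r := by positivity
    have hmpos : (0 : ℝ) < m := by linarith
    have hr2 : r ^ 2 ≤ 1 / m := by
      rw [hr, div_pow, one_pow]
      apply one_div_le_one_div_of_le hmpos
      nlinarith
    have hr1 : r ≤ 1 := by
      rw [hr, div_le_one (by linarith)]
      linarith
    have hrδ : r ^ 2 ≤ δ ^ 2 / 2 := by
      refine hr2.trans ?_
      rw [div_le_div_iff₀ hmpos (by norm_num)]
      rw [div_le_iff₀ (by positivity)] at hm5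
      linarith
    have hrh : r ^ 2 ≤ 1 / 2 := by
      refine hr2.trans ?_
      apply one_div_le_one_div_of_le (by norm_num) hm6
    have hest := app_est K' (C m) (n m) (n' m) (s m) (t m) x y (B m) δ r (ε / 2) (hn m) (hn' m)
      (hCpos m).le i0 j0 hi0 hj0 hxi hyj (hBle m) (hB0 m) hδ.le (by linarith)
      (by
        intro i hi j hj h1 h2
        have h3 := @hδc (⟨s m i, hsX m i hi⟩, ⟨t m j, htY m j hj⟩) (by
          rw [Prod.dist_eq]
          apply max_lt
          · rw [Subtype.dist_eq, Real.dist_eq, abs_sub_comm]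
            exact h1
          · rw [Subtype.dist_eq, Real.dist_eq, abs_sub_comm]
            exact h2)
        rw [Real.dist_eq] at h3
        rw [hK'eq x y]
        have h4 : K' (s m i) (t m j) = K ⟨s m i, hsX m i hi⟩ ⟨t m j, htY m j hj⟩ := by
          simp only [hK']
          rw [dif_pos ⟨hsX m i hi, htY m j hj⟩]
        rw [h4]
        exact h3.le)
      (by
        intro i hi
        have h1 := hsfar m i hi
        have h2 := (abs_le.1 hm3).2
        rw [abs_sub_comm]
        refine le_trans ?_ (le_abs_self _)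
        linarith)
      (by
        intro i hi
        have h1 := htfar m i hi
        have h2 := (abs_le.1 hm4).2
        rw [abs_sub_comm]
        refine le_trans ?_ (le_abs_self _)
        linarith) hr0 hr1
    rw [hK'eq x y] at hest
    rw [Real.dist_eq]
    have hCm : (m : ℝ) ≤ C m := by
      have := hB0 m
      simp only [hC]
      have h1 : (0 : ℝ) ≤ n m := by positivity
      have h2 : (0 : ℝ) ≤ n' m := by positivity
      linarith
    have hC1 : 1 ≤ C m := by linarith
    have hCn : (n m : ℝ) + n' m ≤ C m := by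
      have := hB0 m
      simp only [hC]
      linarith
    have hCB : B m ≤ C m := by
      simp only [hC]
      have h1 : (0 : ℝ) ≤ n m := by positivity
      have h2 : (0 : ℝ) ≤ n' m := by positivity
      linarith
    have hE1 : Real.exp (-(C m * (δ ^ 2 - r ^ 2))) ≤ Real.exp (-(c * C m)) := by
      rw [Real.exp_le_exp]
      have h1 : c ≤ δ ^ 2 - r ^ 2 := by
        have : c ≤ δ ^ 2 / 2 := min_le_left _ _
        linarith
      have := mul_le_mul_of_nonneg_left h1 (hCpos m).le
      linarith
    have hE2 : Real.exp (-(C m * (1 - r ^ 2))) ≤ Real.exp (-(c * C m)) := by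
      rw [Real.exp_le_exp]
      have h1 : c ≤ 1 - r ^ 2 := by
        have : c ≤ 1 / 2 := min_le_right _ _
        linarith
      have := mul_le_mul_of_nonneg_left h1 (hCpos m).le
      linarith
    have hfin := hU (C m) (hm1.trans hCm)
    have hE0 := Real.exp_pos (-(c * C m))
    have hT1 : (B m + |K x y|) * (((n m : ℝ) + n' m) * Real.exp (-(C m * (δ ^ 2 - r ^ 2))))
        ≤ (2 * C m) * (C m * Real.exp (-(c * C m))) := by
      apply mul_le_mul
      · have := hm2.trans hCm
        linarith
      · exact mul_le_mul hCn hE1 (Real.exp_pos _).le (hCpos m).le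
      · positivity
      · have := hCpos m
        positivity
    have hT2 : 2 * Real.exp (-(C m * (1 - r ^ 2))) ≤ 2 * (C m ^ 2 * Real.exp (-(c * C m))) := by
      apply mul_le_mul_of_nonneg_left _ (by norm_num)
      calc Real.exp (-(C m * (1 - r ^ 2))) ≤ 1 * Real.exp (-(c * C m)) := by rw [one_mul]; exact hE2
        _ ≤ C m ^ 2 * Real.exp (-(c * C m)) := by
            apply mul_le_mul_of_nonneg_right _ hE0.le
            nlinarith
    calc |App K' (C m) (n m) (n' m) (s m) (t m) x y - K x y|
        ≤ ε / 2 + (B m + |K x y|) * (((n m : ℝ) + n' m) * Real.exp (-(C m * (δ ^ 2 - r ^ 2))))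
          + 2 * Real.exp (-(C m * (1 - r ^ 2))) := hest
      _ ≤ ε / 2 + (2 * C m) * (C m * Real.exp (-(c * C m)))
          + 2 * (C m ^ 2 * Real.exp (-(c * C m))) := by linarith
      _ = ε / 2 + 4 * C m ^ 2 * Real.exp (-(c * C m)) := by ring
      _ < ε / 2 + ε / 2 := by linarith
      _ = ε := by ring

end Pool.Agent.Results.MP_c12a31_an.AllTP
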